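import Pool.Agent.Lib.MP_d61fbb_ag.MT.Final

/-! An abelian fourfold over a number field whose Galois images are of Mumford type does not have
the symplectic group as its Hodge group. -/

namespace Pool.Agent.Retired.MP_d61fbb_ag.AbelianFourfold

open Pool.Agent.MT.St

theorem result (τ : Matrix (Fin 4) (Fin 4) ℂ) (hτ : Siegel τ)
    (K : IntermediateField ℚ ℂ) (hK : FiniteDimensional ℚ K)
    (ρ : ∀ (l : ℕ) [Fact l.Prime], (ℂ ≃ₐ[K] ℂ) →* GL I8 ℤ_[l]) (hρ : TorsionRep τ K ρ) (B : ℕ)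
    (hM : ∀ (l : ℕ) [Fact l.Prime], B < l → ∃ D : Cubic l, D.Between (Set.range (ρ l)))
    (J : Matrix I8 I8 ℝ) (hJ : IsCx τ J) :
    ∃ g : GL I8 ℂ, g.val ∈ Matrix.symplecticGroup (Fin 4) ℂ ∧ g ∉ Hodge J :=
  Pool.Agent.MT.stc_final Pool.Agent.MT.stage2'_final τ hτ K hK ρ hρ B hM J hJ

end Pool.Agent.Retired.MP_d61fbb_ag.AbelianFourfold
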