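import Pool.Agent.Lib.MP_d61fbb_ag.MN.Final

/-! An abelian variety of dimension `2 ^ (n - 1)`, `n` odd, over a number field whose Galois images
are of Mumford type does not have the symplectic group as its Hodge group. -/

namespace Pool.Agent.Retired.MP_d61fbb_ag.AbelianMumfordType

open Pool.Agent.MT.Sn

theorem result (g n : ℕ) (h3 : 3 ≤ n) (hn : Odd n) (hg : 2 * g = 2 ^ n)
    (τ : Matrix (Fin g) (Fin g) ℂ) (hτ : Siegel τ)
    (K : IntermediateField ℚ ℂ) (hK : FiniteDimensional ℚ K)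
    (ρ : ∀ (l : ℕ) [Fact l.Prime], (ℂ ≃ₐ[K] ℂ) →* GL (Ix g) ℤ_[l]) (hρ : TorsionRep τ K ρ) (B : ℕ)
    (hM : ∀ (l : ℕ) [Fact l.Prime], B < l → ∃ D : Etale g n l, D.Between (Set.range (ρ l)))
    (J : Matrix (Ix g) (Ix g) ℝ) (hJ : IsCx τ J) :
    ∃ x : GL (Ix g) ℂ, x.val ∈ Matrix.symplecticGroup (Fin g) ℂ ∧ x ∉ Hodge J :=
  letI : Pool.Agent.MT.Dim := ⟨n, g, h3, hn, hg⟩
  Pool.Agent.MT.stc_final Pool.Agent.MT.stage2'_final τ hτ K hK ρ hρ B hM J hJ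

end Pool.Agent.Retired.MP_d61fbb_ag.AbelianMumfordType
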