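import Mathlib
import Pool.Agent.Lib.MP_d61fbb_ag.Main

/-!
A semisimple group of similitudes containing a diagonalisable element with an isolated eigenvalue
in every stable subspace has a Lie algebra containing the derived Lefschetz algebra.
-/

set_option autoImplicit false

namespace Pool.Agent.Results.MP_d61fbb_ag.IsolatedEigenvalue

open Matrix Pool.Agent.Lib.MP_d61fbb_ag

theorem result (K n Γ : Type) [Field K] [CharZero K] [Fintype n] [DecidableEq n] [Group Γ]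
    (ρ : Γ →* Matrix n n K) (B : Matrix n n K) (hB : B.det ≠ 0) (hsym : Bᵀ = B ∨ Bᵀ = -B)
    (χ : Γ → K) (hχ : ∀ γ, (ρ γ)ᵀ * B * ρ γ = χ γ • B)
    (hss : ∀ U, Stable ρ ⊤ U → ∃ U', IsCompl U U' ∧ Stable ρ ⊤ U')
    (hconn : ∀ H : Subgroup Γ, H.FiniteIndex → ∀ U, Stable ρ H U → Stable ρ ⊤ U)
    (F : Γ) (hdiag : Submodule.span K {w : n → K | ∃ y : K, ρ F *ᵥ w = y • w} = ⊤)
    (hiso : ∀ U, Stable ρ ⊤ U → U ≠ ⊥ → ∃ v ∈ U, Isolated (ρ F) (χ F) v)
    (X Y : Matrix n n K) (hX : Lefschetz ρ B X) (hY : Lefschetz ρ B Y) :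
    Tangent (Set.range ρ) (X * Y - Y * X) :=
  (core ρ B hB hsym χ hχ hss hconn F hdiag hiso X hX).1 Y hY

end Pool.Agent.Results.MP_d61fbb_ag.IsolatedEigenvalue
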