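import Mathlib
import Pool.Agent.Lib.MP_d61fbb_ag.Main
import Pool.Agent.Lib.MP_d61fbb_ag.Weil

/-!
A Newton polygon criterion in prime power dimension: the Lie algebra of the Zariski closure
contains the whole Lefschetz algebra.
-/

set_option autoImplicit false

namespace Pool.Agent.Retired.MP_d61fbb_ag.PrimePowerDimension

open Matrix Polynomial Pool.Agent.Lib.MP_d61fbb_ag

theorem result (p r : ℕ) [Fact p.Prime] (hr : 0 < r)
    (P : ℤ[X]) (hmonic : P.Monic) (hirr : Irreducible P)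
    (hWeil : ∀ z : ℂ, aeval z P = 0 → ‖z‖ ^ 2 = (p : ℝ) ^ r)
    (l k : ℕ) (hl : l.Prime) (hdeg : P.natDegree = 2 * l ^ k)
    (slope : PadicAlgCl p → ℚ)
    (hslope : ∀ α : PadicAlgCl p, aeval α P = 0 → ‖α‖ = ((p : ℝ) ^ r) ^ (-(slope α : ℝ)))
    (hNP : ∀ ε : PadicAlgCl p → ℤ, (∀ α, ε α = 1 ∨ ε α = -1) → ∀ S : ℚ,
      S = ∑ᶠ (α : PadicAlgCl p) (_ : aeval α P = 0 ∧ slope α < 1 / 2),
        (ε α : ℚ) * (1 - 2 * slope α) →
      S ≠ 0 ∧ ∀ β, aeval β P = 0 → padicNorm l (1 - 2 * slope β) ≤ padicNorm l S)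
    (K n Γ : Type) [Field K] [CharZero K] [IsAlgClosed K] [Fintype n] [DecidableEq n] [Group Γ]
    (ρ : Γ →* Matrix n n K) (B : Matrix n n K) (hB : B.det ≠ 0) (hsym : Bᵀ = B ∨ Bᵀ = -B)
    (χ : Γ → K) (hχ : ∀ γ, (ρ γ)ᵀ * B * ρ γ = χ γ • B)
    (hss : ∀ U, Stable ρ ⊤ U → ∃ U', IsCompl U U' ∧ Stable ρ ⊤ U')
    (hconn : ∀ H : Subgroup Γ, H.FiniteIndex → ∀ U, Stable ρ H U → Stable ρ ⊤ U)
    (F : Γ) (hF : (ρ F).charpoly = P.map (Int.castRingHom K)) (hq : χ F = (p : K) ^ r)
    (Z : Matrix n n K) (hZ : Lefschetz ρ B Z) : Tangent (Set.range ρ) Z := by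
  classical
  obtain ⟨hsep, h1, h2⟩ := weil_pairing p r hr P hmonic hirr hWeil l k hl hdeg slope hslope hNP K
  rw [← hq] at h1 h2
  let f : Module.End K (n → K) := Matrix.toLin' (ρ F)
  have hf : f.charpoly = P.map (Int.castRingHom K) := (Matrix.charpoly_toLin' _).trans hF
  have hroot : ∀ y, Eig (ρ F) y → aeval y P = 0 := by
    rintro y ⟨w, h0, hw⟩
    have := (f.hasEigenvalue_iff_isRoot_charpoly y).1
      (Module.End.hasEigenvalue_of_hasEigenvector ⟨Module.End.mem_eigenspace_iff.2 hw, h0⟩)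
    rwa [hf, IsRoot, eval_map, ← algebraMap_int_eq, ← aeval_def] at this
  have hq0 : χ F ≠ 0 := hq ▸ pow_ne_zero _ (Nat.cast_ne_zero.2 (Fact.out : p.Prime).ne_zero)
  let κ : K → K → ℤ := fun x y => (if y = x then 1 else 0) - (if y = χ F / x then 1 else 0)
  have hκ : ∀ x, x ≠ 0 → ∀ μ ν, μ * ν = χ F → κ x μ + κ x ν = 0 := by
    intro x hx μ ν e
    have a : ∀ μ ν, μ * ν = χ F → (μ = x ↔ ν = χ F / x) := fun μ ν e =>
      ⟨fun t => by rw [← e, t, mul_div_cancel_left₀ _ hx], fun t => by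
        rw [t, mul_div_assoc', div_eq_iff hx, mul_comm] at e
        exact mul_left_cancel₀ hq0 e⟩
    simp only [κ, a μ ν e, ← a ν μ (by rw [mul_comm, e])]
    ring
  refine (core ρ B hB hsym χ hχ hss hconn F ?_ (fun U hU h0 => ?_) Z hZ).2 fun x x' hx e => ?_
  · have := (Module.End.isSemisimple_of_squarefree_aeval_eq_zero hsep.squarefree
      (hf ▸ f.aeval_self_charpoly)).iSup_eigenspace_eq_top
    refine top_le_iff.1 (this ▸ iSup_le fun y w hw => Submodule.subset_span ⟨y, ?_⟩)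
    exact Module.End.mem_eigenspace_iff.1 hw
  · have := Submodule.nontrivial_iff_ne_bot.2 h0
    obtain ⟨x, hx⟩ := Module.End.exists_eigenvalue
      (f.restrict (p := U) (q := U) fun u hu => hU F trivial u hu)
    obtain ⟨v, hv⟩ := hx.exists_hasEigenvector
    have hv0 : (v : n → K) ≠ 0 := fun e => hv.2 (Subtype.ext e)
    have hv1 : ρ F *ᵥ v = x • v := congrArg Subtype.val hv.apply_eq_smul
    obtain ⟨a0, a1, -⟩ := h1 x (hroot x ⟨v, hv0, hv1⟩)
    have a2 : x ≠ χ F / x := fun e => a1 ((eq_div_iff a0).1 e)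
    have a3 : κ x x = 1 := by simp only [κ, if_true, if_neg a2, sub_zero]
    have a4 : ∀ y, aeval y P = 0 → κ x (χ F / y) = -κ x y := fun y hy =>
      eq_neg_of_add_eq_zero_left (hκ x a0 _ _ (div_mul_cancel₀ _ (h1 y hy).1))
    have hx' := hroot x ⟨v, hv0, hv1⟩
    refine ⟨v, v.2, hv0, x, fun w => ⟨fun hw => ?_, ?_⟩, a1, fun y hy N hN e => ?_,
      fun y z u hy hz hu e => ?_⟩
    · have b1 := (f.finrank_eigenspace_le x).trans
        (hf ▸ rootMultiplicity_le_one_of_separable hsep x)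
      obtain ⟨b, hb⟩ := finrank_le_one_iff.1 b1
      obtain ⟨s, hs⟩ := hb ⟨v, Module.End.mem_eigenspace_iff.2 hv1⟩
      obtain ⟨t, ht⟩ := hb ⟨w, Module.End.mem_eigenspace_iff.2 hw⟩
      have hs' : s • (b : n → K) = v := congrArg Subtype.val hs
      have hs0 : s ≠ 0 := fun e => hv0 (by rw [← hs', e, zero_smul])
      exact ⟨t / s, by rw [← hs', smul_smul, div_mul_cancel₀ _ hs0]; exact congrArg Subtype.val ht.symm⟩
    · rintro ⟨t, rfl⟩
      rw [mulVec_smul, hv1, smul_comm]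
    · have hy' := hroot y hy
      have := h2 (κ x) (hκ x a0) [x, χ F / y] (by simp [hx', (h1 y hy').2.2]) 1 N hN (by
        have := pow_ne_zero N a0
        simp only [List.prod_cons, List.prod_nil, mul_one, zpow_one, mul_pow, div_pow, e]
        field_simp)
      simp only [List.map_cons, List.map_nil, List.sum_cons, List.sum_nil, a3, a4 y hy'] at this
      by_contra c
      simp only [κ, if_neg c] at this
      split_ifs at this <;> omega
    · have hy' := hroot y hy
      have hz' := hroot z hz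
      have hu' := hroot u hu
      have := h2 (κ x) (hκ x a0) [x, y, χ F / z, χ F / u]
        (by simp [hx', hy', (h1 z hz').2.2, (h1 u hu').2.2]) 2 1 one_pos (by
          have b1 := (h1 z hz').1
          have b2 := (h1 u hu').1
          simp only [List.prod_cons, List.prod_nil, mul_one, pow_one, ← mul_assoc, e, zpow_two]
          field_simp)
      simp only [List.map_cons, List.map_nil, List.sum_cons, List.sum_nil, a3, a4 z hz',
        a4 u hu'] at this
      by_contra c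
      push Not at c
      have b3 : y ≠ χ F / x := fun t => c.2.2 (by rw [t, mul_div_cancel₀ _ a0])
      simp only [κ, if_neg c.1, if_neg c.2.1, if_neg b3] at this
      split_ifs at this <;> omega
  · obtain ⟨L, hL⟩ := exists_log_of_odd (fun y => aeval y P = 0) (Units.mk0 _ hq0)
      (fun y hy => (h1 y hy).2.2) (κ x) (hκ x x.ne_zero)
      (fun m hm j e => h2 _ (hκ x x.ne_zero) m hm j 1 one_pos (by simpa using e))
    refine ⟨L, fun y hy => ?_⟩
    have : χ F / x = x' := by rw [← e, mul_div_cancel_right₀ _ x.ne_zero]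
    rw [hL y (hroot y hy)]
    simp only [κ, this, Units.val_inj]
    split_ifs <;> simp

end Pool.Agent.Retired.MP_d61fbb_ag.PrimePowerDimension
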